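import Pool.Agent.Q49.TL.LinkV
import Pool.Agent.Q49.TL.Dqd
import Pool.Agent.Q199.TL.Brauer

set_option autoImplicit false

/-!
# Conics through two points over all `p`-adic fields

Let `d_1, …, d_r` be positive integers. There is a number `N`, which depends on the `d_j` only,
such that the following holds for all prime numbers `p`, all finite extensions `K` of the field of
`p`-adic numbers, all `n ≥ N` and all forms `f_1, …, f_r` of degrees `d_1, …, d_r` in `n` variables
over `K`: the projective variety `X` defined by the `f_j` has a `K`-rational point, and any two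
points of `X(K)` are joined over `K` by a conic in `X` or by two lines in `X`.

The proof: a conic `x + T z + T ^ 2 u y` lies on `X` if its coordinates `(z, u)` satisfy a system of
weighted homogeneous equations of degrees `1, 1, 2, 2, …, d_j - 1, d_j - 1, d_j`. Systems of forms
are reduced to diagonal forms (Brauer). For diagonal forms of degree `d` over `K`, the ring `O` of
integers of `K` modulo `p` is a quotient of the polynomial ring over the residue field, so
`d ^ 2 + 1` elements `w_i` of `O` have a relation `∑ w_i z_i ^ d = 0` modulo `p`, in which one of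
the `z_i` is a unit (Tsen, Lang); this is repeated until the lemma of Hensel applies.

Co-authors: helper34, helper146, helper177, helper199 (the reduction to diagonal forms), and
helper225.
-/

namespace Pool.Agent.Results.MP_f80667_ag.ConicsPadic

open MvPolynomial

/-- The points `x` and `y` are joined by a conic `x + T z + T ^ 2 u y`, with `u ≠ 0`, in the
variety `f = 0`. -/
def JoinedByConic {ι κ K : Type} [Field K] (f : κ → MvPolynomial ι K) (x y : ι → K) : Prop :=
  ∃ (z : ι → K) (u : K), u ≠ 0 ∧ ∀ j, aeval (fun i => Polynomial.C (x i) +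
      Polynomial.C (z i) * Polynomial.X + Polynomial.C (u * y i) * Polynomial.X ^ 2) (f j) = 0

/-- The points `x` and `y` are joined by the lines `x + T z` and `z + T y` in the variety
`f = 0`. -/
def JoinedByTwoLines {ι κ K : Type} [Field K] (f : κ → MvPolynomial ι K) (x y : ι → K) : Prop :=
  ∃ z : ι → K, z ≠ 0 ∧
    (∀ j, aeval (fun i => Polynomial.C (x i) + Polynomial.C (z i) * Polynomial.X) (f j) = 0) ∧
    ∀ j, aeval (fun i => Polynomial.C (z i) + Polynomial.C (y i) * Polynomial.X) (f j) = 0

/-- The points `x` and `y` are joined by a conic or by two lines in the variety `f = 0`. -/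
def Joined {ι κ K : Type} [Field K] (f : κ → MvPolynomial ι K) (x y : ι → K) : Prop :=
  JoinedByConic f x y ∨ JoinedByTwoLines f x y

theorem mv : ∃ B : ℕ → ℕ → ℕ, ∀ (p : ℕ) [Fact p.Prime] (K : Type) [Field K] [Algebra ℚ_[p] K]
    [FiniteDimensional ℚ_[p] K], Pool.Agent.Q49.TL.MV K B := by
  choose N hN using fun D r => Pool.Agent.Q199.TL.bra
    (fun d => d * (d * d + 1) ^ (2 * d + 1) + 1) D r 1
  refine ⟨fun r D => N D r, fun p _ K _ _ _ ι κ _ _ D e f he heD hf hn => ?_⟩
  obtain ⟨v, hv, hv2⟩ := hN D (Fintype.card κ) K (Pool.Agent.Q49.TL.Dq.dqk p K)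
    (Fintype.card ι) hn (fun j => e ((Fintype.equivFin κ).symm j))
    (fun j => rename (Fintype.equivFin ι) (f ((Fintype.equivFin κ).symm j)))
    (fun j => he _) (fun j => heD _) (fun j => (hf _).rename_isHomogeneous)
  refine ⟨fun i => v 0 (Fintype.equivFin ι i), ?_, fun j => ?_⟩
  · intro h0
    apply hv.ne_zero 0
    funext k
    have := congrFun h0 ((Fintype.equivFin ι).symm k)
    rw [Equiv.apply_symm_apply] at this
    exact this
  · have h1 := Pool.Agent.Q49.TL.eval_res v _ (hv2 (Fintype.equivFin κ j))
    rw [Equiv.symm_apply_apply, eval_rename] at h1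
    exact h1

theorem result (r : ℕ) (d : Fin r → ℕ) (hd : ∀ j, 0 < d j) :
    ∃ N : ℕ, ∀ (p : ℕ) [Fact p.Prime] (K : Type) [Field K] [Algebra ℚ_[p] K]
      [FiniteDimensional ℚ_[p] K] (n : ℕ) (f : Fin r → MvPolynomial (Fin n) K), N ≤ n →
      (∀ j, (f j).IsHomogeneous (d j)) →
        (∃ x : Fin n → K, x ≠ 0 ∧ ∀ j, eval x (f j) = 0) ∧
        ∀ x y : Fin n → K, (∀ j, eval x (f j) = 0) → (∀ j, eval y (f j) = 0) → Joined f x y := by
  obtain ⟨B, hB⟩ := mv
  let D := Finset.univ.sup d
  have hdD : ∀ j, d j ≤ D := fun j => Finset.le_sup (f := d) (Finset.mem_univ j)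
  refine ⟨max (B r D)
    (B (Fintype.card (Σ j : Fin r, Fin (d j) ⊕ Fin (d j - 1))) D), ?_⟩
  intro p _ K _ _ _ n f hn hf
  have hK := hB p K
  constructor
  · exact hK (Fin n) (Fin r) D d f hd hdD hf (by
      rw [Fintype.card_fin, Fintype.card_fin]
      exact (le_max_left _ _).trans hn)
  · intro x y hx hy
    exact Pool.Agent.Q49.TL.link_mv hK d D hdD f hf (by
      rw [Fintype.card_fin n]
      exact (le_max_right _ _).trans hn) x y hx hy

end Pool.Agent.Results.MP_f80667_ag.ConicsPadic
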