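import Pool.Agent.Q49.TL.LinkV
import Pool.Agent.Q49.TL.Pfin

set_option autoImplicit false

/-!
# Conics through two points over extensions of `p`-adic fields of degree prime to `ℓ`

Let `p ≠ ℓ` be prime numbers, `(i)_ℓ` the `ℓ`-part of `i`, `K` a finite extension of the field of
`p`-adic numbers and `f_j` forms over `K` of degrees `d_j` in `n` variables. If
`∑_j (2 ∑_{i < d_j} i (i)_ℓ + d_j (d_j)_ℓ) < n + 2 (2)_ℓ` then any two points `x` and `y` with
coordinates in `K` of the projective variety `f = 0` are joined, over an extension of `K` of degree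
prime to `ℓ`, by a conic or by two lines in this variety.

The condition holds for one form of degree `3` and all `ℓ` if `14 ≤ n`.

Co-authors: helper34, helper58, helper146, helper177, helper210, helper216, helper225.
-/

namespace Pool.Agent.Results.MP_f80667_ag.ConicsPrimeToL

open MvPolynomial

/-- The points `x` and `y` are joined by a conic `x + T z + T ^ 2 u y`, with `u ≠ 0`, in the
variety `f = 0`. -/
def JoinedByConic {ι κ K : Type} [Field K] (f : κ → MvPolynomial ι K) (x y : ι → K) : Prop :=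
  ∃ (z : ι → K) (u : K), u ≠ 0 ∧ ∀ j, aeval (fun i => Polynomial.C (x i) +
      Polynomial.C (z i) * Polynomial.X + Polynomial.C (u * y i) * Polynomial.X ^ 2) (f j) = 0

/-- The points `x` and `y` are joined by the lines `x + T z` and `z + T y` in the variety
`f = 0`. -/
def JoinedByTwoLines {ι κ K : Type} [Field K] (f : κ → MvPolynomial ι K) (x y : ι → K) : Prop :=
  ∃ z : ι → K, z ≠ 0 ∧
    (∀ j, aeval (fun i => Polynomial.C (x i) + Polynomial.C (z i) * Polynomial.X) (f j) = 0) ∧
    ∀ j, aeval (fun i => Polynomial.C (z i) + Polynomial.C (y i) * Polynomial.X) (f j) = 0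

/-- The points `x` and `y` are joined by a conic or by two lines in the variety `f = 0`. -/
def Joined {ι κ K : Type} [Field K] (f : κ → MvPolynomial ι K) (x y : ι → K) : Prop :=
  JoinedByConic f x y ∨ JoinedByTwoLines f x y

/-- The `ℓ`-part of `a`. -/
def part (ℓ a : ℕ) : ℕ := ℓ ^ a.factorization ℓ

theorem result (p : ℕ) [Fact p.Prime] (K : Type) [Field K] [Algebra ℚ_[p] K]
    [FiniteDimensional ℚ_[p] K] (n r : ℕ) (d : Fin r → ℕ) (f : Fin r → MvPolynomial (Fin n) K)
    (hd : ∀ j, 0 < d j) (hf : ∀ j, (f j).IsHomogeneous (d j)) (ℓ : ℕ) (hℓ : ℓ.Prime)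
    (hp : ℓ ≠ p)
    (hn : ∑ j, (2 * ∑ i ∈ Finset.Ico 1 (d j), i * part ℓ i + d j * part ℓ (d j)) <
      n + 2 * part ℓ 2) (x y : Fin n → K) (hx : ∀ j, eval x (f j) = 0)
    (hy : ∀ j, eval y (f j) = 0) :
    ∃ (L : Type) (_ : Field L) (_ : Algebra K L), FiniteDimensional K L ∧
      ¬ ℓ ∣ Module.finrank K L ∧
      Joined (fun j => map (algebraMap K L) (f j)) (fun i => algebraMap K L (x i))
        (fun i => algebraMap K L (y i)) := by
  haveI : Fact ℓ.Prime := ⟨hℓ⟩
  obtain ⟨L, _, _, hfin, hdeg, z, hz, hz2⟩ := Pool.Agent.Q49.TL.padic p ℓ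
    hp.symm K (Option (Fin n))
    (Σ j : Fin r, Fin (d j) ⊕ Fin (d j - 1)) (Pool.Agent.Q49.TL.wo (Fin n))
    (Pool.Agent.Q49.TL.de d) (Pool.Agent.Q49.TL.fe d f x y) Pool.Agent.Q49.TL.wo_pos
    (Pool.Agent.Q49.TL.de_pos d) (Pool.Agent.Q49.TL.fe_hom d f x y) (by
      have h1 := Pool.Agent.Q49.TL.cost (fun i => i * ℓ ^ i.factorization ℓ) d hd
      have h2 := Pool.Agent.Q49.TL.cost_w (ι := Fin n) (fun i => i * ℓ ^ i.factorization ℓ)
      rw [h1, h2, Fintype.card_fin]
      have h3 : 1 * ℓ ^ (1 : ℕ).factorization ℓ = 1 := by simp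
      rw [h3, mul_one, add_comm]
      exact hn)
  exact ⟨L, inferInstance, inferInstance, hfin, hdeg,
    Pool.Agent.Q49.TL.link_ext d f hf x y hx hy z hz hz2⟩

end Pool.Agent.Results.MP_f80667_ag.ConicsPrimeToL
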